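import Pool.Agent.H59.L.S8.R751.MB.Stm

/-!
# Project MB: `D`-sums are convex bodies
-/

set_option autoImplicit false

namespace Pool.Agent.R751.MB

open MeasureTheory Set Filter Topology
open scoped ENNReal InnerProductSpace Pointwise

namespace DsbX

theorem smul_abs {m : ℕ} {K : Set (Eu (Fin m))} (hs : ∀ x ∈ K, -x ∈ K) (t : ℝ) :
    t • K = |t| • K := by
  rcases le_or_gt 0 t with h | h
  · rw [abs_of_nonneg h]
  · rw [abs_of_neg h]
    ext x
    constructor
    · rintro ⟨y, hy, rfl⟩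
      exact ⟨-y, hs y hy, by simp⟩
    · rintro ⟨y, hy, rfl⟩
      exact ⟨-y, hs y hy, by simp⟩

variable {b : ℕ} {m : Fin b → ℕ}

theorem zero_mem {k : ℕ} {K : Set (Eu (Fin k))} (hK : Body K) (hs : ∀ x ∈ K, -x ∈ K) :
    (0 : Eu (Fin k)) ∈ K := by
  obtain ⟨x, hx⟩ := hK.int
  have h1 := interior_subset hx
  have h2 := hK.conv h1 (hs x h1) (by norm_num : (0 : ℝ) ≤ 1 / 2) (by norm_num : (0 : ℝ) ≤ 1 / 2)
    (by norm_num)
  simpa using h2

/-- nonnegative representatives -/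
theorem mem_iff {D : Set (Eu (Fin b))} (hD : UBody D) {K : ∀ i, Set (Eu (Fin (m i)))}
    (hs : ∀ i, ∀ x ∈ K i, -x ∈ K i) (x : ∀ i, Eu (Fin (m i))) :
    x ∈ dsum D K ↔ ∃ t ∈ D, (∀ i, 0 ≤ t i) ∧ ∀ i, x i ∈ t i • K i := by
  constructor
  · rintro ⟨t, ht, hx⟩
    refine ⟨WithLp.toLp 2 fun i => |t i|, hD.unc t ht _ fun i => by simp, fun i => abs_nonneg _,
      fun i => ?_⟩
    have h := hx i
    rw [smul_abs (hs i)] at h
    exact h
  · rintro ⟨t, ht, -, hx⟩
    exact ⟨t, ht, hx⟩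

theorem conv_dsum {D : Set (Eu (Fin b))} (hD : UBody D) {K : ∀ i, Set (Eu (Fin (m i)))}
    (hK : ∀ i, Body (K i)) (hs : ∀ i, ∀ x ∈ K i, -x ∈ K i) : Convex ℝ (dsum D K) := by
  intro x hx y hy a c ha hc hac
  rw [mem_iff hD hs] at hx hy ⊢
  obtain ⟨t, ht, ht0, hx⟩ := hx
  obtain ⟨u, hu, hu0, hy⟩ := hy
  refine ⟨a • t + c • u, hD.conv ht hu ha hc hac, fun i => ?_, fun i => ?_⟩
  · have h1 := mul_nonneg ha (ht0 i)
    have h2 := mul_nonneg hc (hu0 i)
    simpa using add_nonneg h1 h2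
  · obtain ⟨y1, hy1, e1⟩ := hx i
    obtain ⟨y2, hy2, e2⟩ := hy i
    have h1 : (a • t + c • u) i = a * t i + c * u i := by simp
    have h3 : (a • x + c • y) i = (a * t i) • y1 + (c * u i) • y2 := by
      rw [Pi.add_apply, Pi.smul_apply, Pi.smul_apply, ← e1, ← e2]
      simp only [smul_smul]
    rw [h1, h3, (hK i).conv.add_smul (mul_nonneg ha (ht0 i)) (mul_nonneg hc (hu0 i))]
    exact add_mem_add (smul_mem_smul_set hy1) (smul_mem_smul_set hy2)

theorem comp_dsum {D : Set (Eu (Fin b))} (hD : UBody D) {K : ∀ i, Set (Eu (Fin (m i)))}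
    (hK : ∀ i, Body (K i)) : IsCompact (dsum D K) := by
  have h1 : dsum D K = (fun z : Eu (Fin b) × (∀ i, Eu (Fin (m i))) => fun i => z.1 i • z.2 i) ''
      (D ×ˢ univ.pi K) := by
    ext x
    constructor
    · rintro ⟨t, ht, hx⟩
      choose y hy e using hx
      exact ⟨(t, y), ⟨ht, fun i _ => hy i⟩, funext e⟩
    · rintro ⟨⟨t, y⟩, ⟨ht, hy⟩, rfl⟩
      exact ⟨t, ht, fun i => ⟨y i, hy i (mem_univ i), rfl⟩⟩
  rw [h1]
  refine (hD.comp.prod (isCompact_univ_pi fun i => (hK i).comp)).image ?_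
  refine continuous_pi fun i => ?_
  have h2 : Continuous fun z : Eu (Fin b) × (∀ i, Eu (Fin (m i))) => z.1 i := by fun_prop
  have h3 : Continuous fun z : Eu (Fin b) × (∀ i, Eu (Fin (m i))) => z.2 i := by fun_prop
  exact h2.smul h3

theorem int_dsum {D : Set (Eu (Fin b))} (hD : UBody D) {K : ∀ i, Set (Eu (Fin (m i)))}
    (hK : ∀ i, Body (K i)) : (interior (dsum D K)).Nonempty := by
  obtain ⟨x0, hx0⟩ := hD.int
  obtain ⟨r, hr, hball⟩ := Metric.isOpen_iff.1 isOpen_interior x0 hx0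
  obtain ⟨σ, hσ⟩ : ∃ σ : Eu (Fin b), σ = WithLp.toLp 2 fun i => if 0 ≤ x0 i then (1 : ℝ) else -1 :=
    ⟨_, rfl⟩
  obtain ⟨η, hη⟩ : ∃ η : ℝ, η = r / (2 * (‖σ‖ + 1)) := ⟨_, rfl⟩
  have hη0 : 0 < η := by rw [hη]; positivity
  have h1 : x0 + η • σ ∈ D := by
    refine interior_subset (hball ?_)
    rw [Metric.mem_ball, dist_self_add_left, norm_smul, Real.norm_eq_abs, abs_of_pos hη0, hη,
      div_mul_eq_mul_div, div_lt_iff₀ (by positivity)]
    nlinarith [norm_nonneg σ]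
  have h2 : ∀ i, (x0 + η • σ) i ≠ 0 := by
    intro i
    have e : (x0 + η • σ) i = x0 i + η * σ i := by simp
    rw [e, hσ]
    simp only
    by_cases h : 0 ≤ x0 i
    · rw [if_pos h]
      linarith [mul_one η]
    · rw [if_neg h]
      rw [not_le] at h
      have : x0 i + η * -1 < 0 := by linarith
      exact this.ne
  have hop : IsOpen (univ.pi fun i => interior ((x0 + η • σ) i • K i)) :=
    isOpen_set_pi finite_univ fun i _ => isOpen_interior
  have hsub : (univ.pi fun i => interior ((x0 + η • σ) i • K i)) ⊆ dsum D K := fun x hx =>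
    ⟨x0 + η • σ, h1, fun i => interior_subset (hx i (mem_univ i))⟩
  have hne : (univ.pi fun i => interior ((x0 + η • σ) i • K i)).Nonempty := by
    rw [univ_pi_nonempty_iff]
    intro i
    rw [interior_smul₀ (h2 i)]
    exact (hK i).int.smul_set
  exact hne.mono (interior_maximal hsub hop)

end DsbX

/-- `D`-sums are convex bodies -/
theorem dsb (b n : ℕ) (m : Fin b → ℕ) (e : (∀ i, Eu (Fin (m i))) ≃ₗ[ℝ] Eu (Fin n))
    (D : Set (Eu (Fin b))) (K : ∀ i, Set (Eu (Fin (m i)))) (hD : UBody D) (hK : ∀ i, Body (K i))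
    (hs : ∀ i, ∀ x ∈ K i, -x ∈ K i) : Body (e '' dsum D K) := by
  have hc : Continuous e := e.toLinearMap.continuous_of_finiteDimensional
  refine ⟨(DsbX.comp_dsum hD hK).image hc, (DsbX.conv_dsum hD hK hs).linear_image e.toLinearMap, ?_⟩
  have hop : IsOpen (e '' interior (dsum D K)) :=
    e.toContinuousLinearEquiv.toHomeomorph.isOpenMap _ isOpen_interior
  exact ((DsbX.int_dsum hD hK).image e).mono (interior_maximal (image_mono interior_subset) hop)

end Pool.Agent.R751.MB
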