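import Pool.Agent.H59.L.S8.R751.MB.Stm

/-!
# Project MB, piece PRB: products of `b` bodies
-/

set_option autoImplicit false

namespace Pool.Agent.R751.MB

open MeasureTheory Set Filter Topology
open scoped ENNReal InnerProductSpace Pointwise

/-- the image of a product of bodies under a linear bijection is a body -/
theorem body_pi {b n : ℕ} {m : Fin b → ℕ} (e : (∀ i, Eu (Fin (m i))) ≃ₗ[ℝ] Eu (Fin n))
    (K : ∀ i, Set (Eu (Fin (m i)))) (hK : ∀ i, Body (K i)) : Body (e '' univ.pi K) := by
  let e' : (∀ i, Eu (Fin (m i))) ≃L[ℝ] Eu (Fin n) := e.toContinuousLinearEquiv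
  have he : (e : (∀ i, Eu (Fin (m i))) → Eu (Fin n)) = e' := rfl
  refine ⟨?_, ?_, ?_⟩
  · rw [he]
    exact (isCompact_univ_pi fun i => (hK i).comp).image e'.continuous
  · exact (convex_pi fun i _ => (hK i).conv).linear_image e.toLinearMap
  · have h1 : (interior (univ.pi K)).Nonempty := by
      rw [interior_pi_set finite_univ]
      choose x hx using fun i => (hK i).int
      exact ⟨x, fun i _ => hx i⟩
    rw [he]
    have h2 : e' '' interior (univ.pi K) ⊆ interior (e' '' univ.pi K) :=
      (e'.toHomeomorph.isOpenMap).image_interior_subset _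
    exact (h1.image _).mono h2

theorem ccw_zero {κ δ : ℝ} (hδ : 0 ≤ δ) (w : Eu (Fin 0) → ℝ) : CcW κ δ w := by
  intro k _ T s _ _ v _ _ _
  have e : ∀ x : Eu (Fin 0), T x = 0 := fun x => by
    rw [Subsingleton.elim x 0, map_zero]
  unfold VW EW
  simp only [e]
  have hx : ∀ x : Eu (Fin 0), x = 0 := fun x => Subsingleton.elim x 0
  by_cases h0 : ∫ x, w x = 0
  · rw [h0]
    simpa using hδ
  · rw [integral_const_mul, integral_const_mul, mul_div_assoc, mul_div_assoc, div_self h0]
    simpa using hδ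

theorem prb (h : S_PRD) : S_PRB := by
  intro b
  induction b with
  | zero =>
    intro κ δ n m e K _ _ _
    have hn : n = 0 := by
      have := e.finrank_eq
      rw [Module.finrank_pi_fintype] at this
      simpa using this.symm
    subst hn
    exact ccw_zero (by simp) _
  | succ b ih =>
    intro κ δ n m e K hδ hK hc
    obtain ⟨n', hn'⟩ : ∃ n', n' = Module.finrank ℝ (∀ i : Fin b, Eu (Fin (m i.succ))) := ⟨_, rfl⟩
    let e' : (∀ i : Fin b, Eu (Fin (m i.succ))) ≃ₗ[ℝ] Eu (Fin n') :=
      LinearEquiv.ofFinrankEq _ _ (by rw [finrank_euclideanSpace_fin, hn'])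
    have h1 := ih κ δ n' (fun i => m i.succ) e' (fun i => K i.succ) hδ (fun i => hK _)
      (fun i => hc _)
    let e'' : (Eu (Fin (m 0)) × Eu (Fin n')) ≃ₗ[ℝ] Eu (Fin n) :=
      ((LinearEquiv.refl ℝ _).prodCongr e'.symm).trans
        ((Fin.consLinearEquiv ℝ (fun i => Eu (Fin (m i)))).trans e)
    have h2 := h κ δ (b * δ) (m 0) n' n e'' (K 0) (e' '' univ.pi (fun i => K i.succ)) (hK 0)
      (body_pi e' (fun i => K i.succ) (fun i => hK _)) (hc 0) h1
    have himg : e'' '' (K 0 ×ˢ (e' '' univ.pi (fun i => K i.succ))) = e '' univ.pi K := by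
      have hv : ∀ x : Eu (Fin (m 0)), ∀ z : Eu (Fin n'),
          e'' (x, z) = e (Fin.cons x (e'.symm z)) := fun x z => rfl
      ext y
      constructor
      · rintro ⟨⟨x, z⟩, ⟨hx, ⟨u, hu, rfl⟩⟩, rfl⟩
        refine ⟨Fin.cons x u, ?_, ?_⟩
        · intro i _
          refine Fin.cases ?_ (fun i => ?_) i
          · rw [Fin.cons_zero]; exact hx
          · rw [Fin.cons_succ]; exact hu i (mem_univ _)
        · rw [hv, LinearEquiv.symm_apply_apply]
      · rintro ⟨x, hx, rfl⟩
        refine ⟨(x 0, e' (fun i => x i.succ)), ⟨hx 0 (mem_univ _), ?_⟩, ?_⟩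
        · exact ⟨fun i => x i.succ, fun i _ => hx _ (mem_univ _), rfl⟩
        · rw [hv, LinearEquiv.symm_apply_apply]
          congr 1
          exact Fin.cons_self_tail x
    rw [himg] at h2
    have e1 : ((b + 1 : ℕ) : ℝ) * δ = δ + b * δ := by push_cast; ring
    rw [e1]
    exact h2

end Pool.Agent.R751.MB
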