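import Pool.Agent.H59.L.S8.R751.MB.Stm
import Pool.Agent.H59.L.S8.Results.MP_6d896a_gt.Particles

/-!
# MB-PAR: concentration for bodies which are invariant under permutations of particles
-/

set_option autoImplicit false

namespace Pool.Agent.R751.MB

open MeasureTheory Set Filter Topology
open scoped ENNReal InnerProductSpace Pointwise

namespace ParAux

variable {κ : Type} [Fintype κ] {n : ℕ}

/-- change of variables up to a constant -/
lemma chg (e : Eu κ ≃ₗ[ℝ] Eu (Fin n)) : ∃ c : ℝ, 0 < c ∧ ∀ g : Eu (Fin n) → ℝ,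
    ∫ x, g x = c * ∫ z, g (e z) := by
  set E : Eu κ ≃L[ℝ] Eu (Fin n) := e.toContinuousLinearEquiv with hE
  have h1 : (Measure.map E (volume : Measure (Eu κ))).IsAddHaarMeasure :=
    E.isAddHaarMeasure_map volume
  obtain ⟨c, hc0, hct, hc⟩ : ∃ c : ℝ≥0∞, c ≠ 0 ∧ c ≠ ∞ ∧
      (volume : Measure (Eu (Fin n))) = c • Measure.map E (volume : Measure (Eu κ)) := by
    refine ⟨(Measure.addHaarScalarFactor (volume : Measure (Eu (Fin n)))
      (Measure.map E (volume : Measure (Eu κ))) : ℝ≥0∞), ?_, ENNReal.coe_ne_top, ?_⟩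
    · have := Measure.addHaarScalarFactor_pos_of_isAddHaarMeasure
        (volume : Measure (Eu (Fin n))) (Measure.map E (volume : Measure (Eu κ)))
      exact_mod_cast this.ne'
    · have := Measure.isAddLeftInvariant_eq_smul (volume : Measure (Eu (Fin n)))
        (Measure.map E (volume : Measure (Eu κ)))
      exact this
  refine ⟨c.toReal, ENNReal.toReal_pos hc0 hct, fun g => ?_⟩
  have hm : MeasurableEmbedding (E : Eu κ → Eu (Fin n)) :=
    E.toHomeomorph.measurableEmbedding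
  calc ∫ x, g x = ∫ x, g x ∂(c • Measure.map E (volume : Measure (Eu κ))) := by rw [← hc]
    _ = c.toReal * ∫ x, g x ∂(Measure.map E (volume : Measure (Eu κ))) := by
        rw [integral_smul_measure, smul_eq_mul]
    _ = c.toReal * ∫ z, g (E z) := by rw [hm.integral_map]

/-- the indicator function of a set, on any Euclidean space -/
noncomputable def indK (K : Set (Eu κ)) : Eu κ → ℝ := K.indicator fun _ => 1

omit [Fintype κ] in
lemma ind_img (e : Eu κ ≃ₗ[ℝ] Eu (Fin n)) (K : Set (Eu κ)) (z : Eu κ) :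
    ind (e '' K) (e z) = indK K z := by
  unfold ind indK
  by_cases h : z ∈ K
  · rw [indicator_of_mem h, indicator_of_mem (mem_image_of_mem _ h)]
  · rw [indicator_of_notMem h, indicator_of_notMem]
    rintro ⟨y, hy, hyz⟩
    exact h (e.injective hyz ▸ hy)

lemma EW_img (e : Eu κ ≃ₗ[ℝ] Eu (Fin n)) (K : Set (Eu κ)) (f : Eu (Fin n) → ℝ) :
    EW (ind (e '' K)) f = EW (indK K) fun z => f (e z) := by
  obtain ⟨c, hc, h⟩ := chg e
  unfold EW
  rw [h, h]
  simp only [ind_img]
  rw [mul_div_mul_left _ _ hc.ne']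

lemma VW_img (e : Eu κ ≃ₗ[ℝ] Eu (Fin n)) (K : Set (Eu κ)) (f : Eu (Fin n) → ℝ) :
    VW (ind (e '' K)) f = VW (indK K) fun z => f (e z) := by
  unfold VW
  rw [EW_img, EW_img]

lemma adm {K : Set (Eu κ)} (hK : Body K) : Adm (indK K) where
  nonneg x := indicator_nonneg (fun _ _ => zero_le_one) x
  int := by
    have h1 : (fun x : Eu κ => (1 + ‖x‖ ^ 2) * indK K x) =
        K.indicator fun x => (1 + ‖x‖ ^ 2) := by
      ext x
      unfold indK
      by_cases h : x ∈ K
      · rw [indicator_of_mem h, indicator_of_mem h, mul_one]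
      · rw [indicator_of_notMem h, indicator_of_notMem h, mul_zero]
    rw [h1, integrable_indicator_iff hK.comp.measurableSet]
    exact (Continuous.continuousOn (by fun_prop)).integrableOn_compact hK.comp
  pos := by
    unfold indK
    rw [integral_indicator hK.comp.measurableSet, setIntegral_const, smul_eq_mul, mul_one]
    refine ENNReal.toReal_pos ?_ hK.comp.measure_lt_top.ne
    have h1 : 0 < volume (interior K) := isOpen_interior.measure_pos _ hK.int
    exact (lt_of_lt_of_le h1 (measure_mono interior_subset)).ne'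
  meas := measurable_const.indicator hK.comp.measurableSet

lemma ind_logc {E : Type} [AddCommGroup E] [Module ℝ E] {K : Set E} (hK : Convex ℝ K) (c : ℝ)
    (hc : 0 < c) (x y : E) (t : ℝ) (h0 : 0 < t) (h1 : t < 1) :
    (c * K.indicator (fun _ => (1:ℝ)) x) ^ (1 - t) * (c * K.indicator (fun _ => (1:ℝ)) y) ^ t ≤
      c * K.indicator (fun _ => (1:ℝ)) ((1 - t) • x + t • y) := by
  have hnn : 0 ≤ c * K.indicator (fun _ => (1:ℝ)) ((1 - t) • x + t • y) :=
    mul_nonneg hc.le (indicator_nonneg (fun _ _ => zero_le_one) _)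
  by_cases hx : x ∈ K
  · by_cases hy : y ∈ K
    · have hz : (1 - t) • x + t • y ∈ K := hK hx hy (by linarith) h0.le (by ring)
      rw [indicator_of_mem hx, indicator_of_mem hy, indicator_of_mem hz, mul_one,
        ← Real.rpow_add hc]
      simp
    · rw [indicator_of_notMem hy, mul_zero, Real.zero_rpow h0.ne', mul_zero]
      exact hnn
  · rw [indicator_of_notMem hx, mul_zero, Real.zero_rpow (by linarith : (1 - t) ≠ 0), zero_mul]
    exact hnn

/-- the isometry given by a permutation of the particles -/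
noncomputable def gg {N d : ℕ} (σ : Equiv.Perm (Fin N)) : Conf N d ≃ₗᵢ[ℝ] Conf N d :=
  LinearIsometryEquiv.piLpCongrLeft 2 ℝ ℝ (Equiv.prodCongr σ.symm (Equiv.refl (Fin d)))

lemma gg_apply {N d : ℕ} (σ : Equiv.Perm (Fin N)) (x : Conf N d) (i : Fin N) (α : Fin d) :
    gg σ x (i, α) = x (σ i, α) := rfl

lemma gg_of {N d : ℕ} (σ : Equiv.Perm (Fin N)) (x y : Conf N d)
    (h : ∀ i α, y (i, α) = x (σ i, α)) : y = gg σ x := by
  ext ⟨i, α⟩
  rw [h i α, gg_apply]

lemma gg_symm {N d : ℕ} (σ : Equiv.Perm (Fin N)) (x : Conf N d) :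
    gg σ⁻¹ (gg σ x) = x := by
  ext ⟨i, α⟩
  rw [gg_apply, gg_apply]
  simp

/-- the norm of a linear map from the variances of the linear functions -/
lemma opn {w : Eu κ → ℝ} {k : ℕ} {s : ℝ} (_hs : 0 < s) (S : Eu κ ≃L[ℝ] Eu κ)
    (hS : ∀ θ, VW w (fun x => ⟪S x, θ⟫_ℝ) = ‖θ‖ ^ 2) (A : Eu κ →L[ℝ] Eu (Fin k))
    (hA : ∀ θ : Eu (Fin k), ‖θ‖ = 1 → VW w (fun x => ⟪A (S x), θ⟫_ℝ) ≤ s) :
    ‖A‖ ≤ Real.sqrt s := by
  have h1 : ∀ θ : Eu (Fin k), ‖θ‖ = 1 → ‖A.adjoint θ‖ ≤ Real.sqrt s := by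
    intro θ hθ
    have h2 := hA θ hθ
    have h3 : (fun x => ⟪A (S x), θ⟫_ℝ) = fun x => ⟪S x, A.adjoint θ⟫_ℝ := by
      ext x
      rw [ContinuousLinearMap.adjoint_inner_right]
    rw [h3, hS] at h2
    exact Real.le_sqrt_of_sq_le h2
  have h4 : ‖A‖ = ‖A.adjoint‖ := (LinearIsometryEquiv.norm_map ContinuousLinearMap.adjoint A).symm
  rw [h4]
  exact ContinuousLinearMap.opNorm_le_of_unit_norm (Real.sqrt_nonneg _) h1

end ParAux

open ParAux in
/-- MB-PAR -/
theorem par (H1 : S_WHT) (H2 : S_GEN) : S_PAR := by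
  obtain ⟨C, hC, HP⟩ := Pool.Agent.Results.MP_6d896a_gt.Particles.result
  intro d q δ hδ hd
  set F : ℝ := C * (q * (d : ℝ) ^ 4 * (1 + Real.log q) ^ 2) with hF
  have hF0 : 0 ≤ F := by positivity
  set κ0 : ℝ := Real.sqrt (δ / (F + 1)) with hκ0
  have hκpos : 0 < κ0 := Real.sqrt_pos.2 (by positivity)
  refine ⟨κ0, hκpos, ?_⟩
  intro N n b e K hN hb hK hinv
  set w : Conf N d → ℝ := indK K with hw
  have hadm : Adm w := adm hK
  obtain ⟨S, hS1, hS2⟩ := H1 (Fin N × Fin d) w hadm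
  obtain ⟨c, hc, hμ⟩ := H2 (Fin N × Fin d) w hadm S hS1
  set ρ : Conf N d → ℝ := fun y => c * w (S.symm y) with hρ
  obtain ⟨hprob, hcov, hgen⟩ := hμ (volume.withDensity (fun y => ENNReal.ofReal (ρ y))) rfl
  set μ : Measure (Conf N d) := volume.withDensity (fun y => ENNReal.ofReal (ρ y)) with hμd
  -- invariance of `w`
  have hwinv : ∀ σ : Equiv.Perm (Fin N), (∀ i, b (σ i) = b i) → ∀ x, w (gg σ x) = w x := by
    intro σ hσ x
    have hσ' : ∀ i, b (σ⁻¹ i) = b i := by
      intro i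
      have := hσ (σ⁻¹ i)
      rw [show σ (σ⁻¹ i) = i from σ.apply_symm_apply i] at this
      exact this.symm
    by_cases h : x ∈ K
    · have h2 : gg σ x ∈ K := hinv σ hσ x _ (fun i α => gg_apply σ x i α) h
      simp only [hw, indK]
      rw [indicator_of_mem h, indicator_of_mem h2]
    · have h2 : gg σ x ∉ K := by
        intro h3
        apply h
        have h4 := hinv σ⁻¹ hσ' (gg σ x) (gg σ⁻¹ (gg σ x)) (fun i α => gg_apply _ _ i α) h3
        rwa [gg_symm] at h4
      simp only [hw, indK]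
      rw [indicator_of_notMem h, indicator_of_notMem h2]
  have hρS : Pool.Agent.Results.MP_6d896a_gt.Particles.SpeciesDensity b ρ := by
    refine ⟨fun x => mul_nonneg hc.le (hadm.nonneg _), ?_, ?_, ?_⟩
    · exact (hadm.meas.comp S.symm.continuous.measurable).const_mul c
    · intro x y t h0 h1
      have h2 := ind_logc hK.conv c hc (S.symm x) (S.symm y) t h0 h1
      simp only [hρ, hw, indK]
      rw [map_add, map_smul, map_smul]
      exact h2
    · intro σ hσ x y hxy
      rw [gg_of σ x y hxy]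
      simp only [hρ]
      have h3 : S.symm (gg σ x) = gg σ (S.symm x) := by
        apply S.injective
        rw [S.apply_symm_apply, hS2 (gg σ) (hwinv σ hσ), S.apply_symm_apply]
      rw [h3, hwinv σ hσ]
  have key := HP N d q hN hd b hb ρ hρS μ rfl hprob 1 one_pos hcov
  -- the concentration
  intro k hk T s hs hT v hv hv1 hv2
  rw [VW_img]
  simp only [VW_img] at hT
  set A : Conf N d →L[ℝ] Eu (Fin k) :=
    ((T ∘ₗ e.toLinearMap).toContinuousLinearMap).comp (S.symm : Conf N d →L[ℝ] Conf N d) with hA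
  have hAS : ∀ x, A (S x) = T (e x) := by
    intro x
    simp [hA]
  have hAn : ‖A‖ ≤ Real.sqrt s := by
    refine opn hs S hS1 A (fun θ hθ => ?_)
    simp only [hAS]
    exact hT θ hθ
  set f : Conf N d → ℝ := fun y => v (A y) with hf
  have hfC : ContDiff ℝ 1 f := hv.comp A.contDiff
  have hfd : ∀ y, ‖fderiv ℝ f y‖ ≤ κ0 := by
    intro y
    have h1 : fderiv ℝ f y = (fderiv ℝ v (A y)).comp A := by
      have h2 : HasFDerivAt f ((fderiv ℝ v (A y)).comp A) y :=
        (hv.differentiable one_ne_zero (A y)).hasFDerivAt.comp y A.hasFDerivAt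
      exact h2.fderiv
    rw [h1]
    calc ‖(fderiv ℝ v (A y)).comp A‖ ≤ ‖fderiv ℝ v (A y)‖ * ‖A‖ :=
          ContinuousLinearMap.opNorm_comp_le _ _
      _ ≤ κ0 / Real.sqrt s * Real.sqrt s :=
          mul_le_mul (hv2 _) hAn (norm_nonneg _) (by positivity)
      _ = κ0 := div_mul_cancel₀ _ (Real.sqrt_pos.2 hs).ne'
  obtain ⟨hm, hvar, -⟩ := hgen f hfC ⟨1, fun x => hv1 _⟩ ⟨κ0, hfd⟩
  have e1 : VW w (fun z => v (T (e z))) = ProbabilityTheory.variance f μ := by
    rw [hvar]
    congr 1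
    ext x
    simp only [hf]
    rw [hAS]
  rw [e1]
  set g : Conf N d → ℝ := fun y => κ0⁻¹ * f y with hg
  have hgC : ContDiff ℝ 1 g := contDiff_const.mul hfC
  have hgd : ∀ y, ‖fderiv ℝ g y‖ ≤ 1 := by
    intro y
    have h1 : fderiv ℝ g y = κ0⁻¹ • fderiv ℝ f y := by
      rw [hg]
      exact fderiv_const_mul ((hfC.differentiable one_ne_zero) y) _
    rw [h1, norm_smul, Real.norm_eq_abs, abs_of_pos (inv_pos.2 hκpos)]
    calc κ0⁻¹ * ‖fderiv ℝ f y‖ ≤ κ0⁻¹ * κ0 :=
          mul_le_mul_of_nonneg_left (hfd y) (inv_pos.2 hκpos).le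
      _ = 1 := inv_mul_cancel₀ hκpos.ne'
  have h5 := ((key g hgC).1 hgd).2
  rw [ProbabilityTheory.variance_const_mul, ← hF, mul_one] at h5
  have h6 : ProbabilityTheory.variance f μ ≤ κ0 ^ 2 * F := by
    have h7 : κ0 ^ 2 * (κ0⁻¹ ^ 2 * ProbabilityTheory.variance f μ) ≤ κ0 ^ 2 * F :=
      mul_le_mul_of_nonneg_left h5 (sq_nonneg _)
    rwa [← mul_assoc, ← mul_pow, mul_inv_cancel₀ hκpos.ne', one_pow, one_mul] at h7
  refine h6.trans ?_
  rw [hκ0, Real.sq_sqrt (by positivity), div_mul_eq_mul_div, div_le_iff₀ (by positivity)]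
  nlinarith

end Pool.Agent.R751.MB
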