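import Pool.Agent.H59.L.S8.R751.MB.Stm
import Pool.Agent.H59.L.S8.R754.KG.B

/-!
# Project MB: concentration for products of two bodies (`MB-PRD`)
-/

set_option autoImplicit false

namespace Pool.Agent.R751.MB

open MeasureTheory Set Filter Topology
open scoped ENNReal InnerProductSpace Pointwise
open Pool.Agent.R754.KG (un un_prob un_int)

namespace Prd

theorem EW_ind {n : ℕ} {A : Set (Eu (Fin n))} (hA : MeasurableSet A) (f : Eu (Fin n) → ℝ) :
    EW (ind A) f = ∫ x, f x ∂(un A) := by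
  unfold EW un ind
  rw [integral_smul_measure, ENNReal.toReal_inv, smul_eq_mul, inv_mul_eq_div]
  have e1 : (fun x => f x * A.indicator (fun _ => (1 : ℝ)) x) = A.indicator f := by
    funext x
    by_cases hx : x ∈ A
    · simp [hx]
    · simp [hx]
  rw [e1, integral_indicator hA, integral_indicator hA]
  simp [Measure.real]

theorem VW_ind {n : ℕ} {A : Set (Eu (Fin n))} (hA : MeasurableSet A) (f : Eu (Fin n) → ℝ) :
    VW (ind A) f = (∫ x, f x ^ 2 ∂(un A)) - (∫ x, f x ∂(un A)) ^ 2 := by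
  unfold VW
  rw [EW_ind hA, EW_ind hA]

/-- concentration for linear images of arbitrary dimension -/
theorem fibc {N k : ℕ} {κ δ : ℝ} {L : Set (Eu (Fin N))} (hc : CcW κ δ (ind L))
    (T0 : Eu (Fin N) →ₗ[ℝ] Eu (Fin k)) (y0 : Eu (Fin k))
    (s : ℝ) (hs : 0 < s)
    (h : ∀ θ : Eu (Fin k), ‖θ‖ = 1 → VW (ind L) (fun p => ⟪T0 p, θ⟫_ℝ) ≤ s)
    (v : Eu (Fin k) → ℝ) (hv : ContDiff ℝ 1 v) (hb : ∀ y, |v y| ≤ 1)
    (hd : ∀ y, ‖fderiv ℝ v y‖ ≤ κ / Real.sqrt s) :
    VW (ind L) (fun p => v (y0 + T0 p)) ≤ δ := by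
  obtain ⟨k', hk'⟩ : ∃ k', k' = Module.finrank ℝ (LinearMap.range T0) := ⟨_, rfl⟩
  have hle : k' ≤ N := by
    rw [hk']
    have := LinearMap.finrank_range_le T0
    simpa using this
  let ob : OrthonormalBasis (Fin k') ℝ (LinearMap.range T0) :=
    (stdOrthonormalBasis ℝ (LinearMap.range T0)).reindex (finCongr hk'.symm)
  let ι : Eu (Fin k') →ₗᵢ[ℝ] Eu (Fin k) :=
    (LinearMap.range T0).subtypeₗᵢ.comp ob.repr.symm.toLinearIsometry
  let T1 : Eu (Fin N) →ₗ[ℝ] Eu (Fin k') := ob.repr.toLinearEquiv.toLinearMap ∘ₗ T0.rangeRestrict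
  have hT : ∀ p, ι (T1 p) = T0 p := by
    intro p
    simp [ι, T1]
  have key := hc k' hle T1 s hs (fun θ hθ => by
    have h1 := h (ι θ) (by rw [ι.norm_map]; exact hθ)
    have e : (fun p => ⟪T1 p, θ⟫_ℝ) = fun p => ⟪T0 p, ι θ⟫_ℝ := by
      funext p
      rw [← hT p, ι.inner_map_map]
    rw [e]
    exact h1) (fun y => v (y0 + ι y)) (by
      exact hv.comp (contDiff_const.add ι.contDiff)) (fun y => hb _) (fun y => by
      have h2 : HasFDerivAt (fun y => y0 + ι y) ι.toContinuousLinearMap y :=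
        (ι.toContinuousLinearMap.hasFDerivAt).const_add y0
      have h3 : HasFDerivAt v (fderiv ℝ v (y0 + ι y)) (y0 + ι y) :=
        ((hv.differentiable one_ne_zero) _).hasFDerivAt
      have h4 := (h3.comp y h2).fderiv
      have e4 : (v ∘ fun y => y0 + ι y) = fun y => v (y0 + ι y) := rfl
      rw [e4] at h4
      rw [h4]
      refine (ContinuousLinearMap.opNorm_comp_le _ _).trans ?_
      have h5 : ‖ι.toContinuousLinearMap‖ ≤ 1 := ι.norm_toContinuousLinearMap_le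
      calc ‖fderiv ℝ v (y0 + ι y)‖ * ‖ι.toContinuousLinearMap‖
          ≤ ‖fderiv ℝ v (y0 + ι y)‖ * 1 := mul_le_mul_of_nonneg_left h5 (norm_nonneg _)
        _ ≤ _ := by rw [mul_one]; exact hd _)
  have e : (fun p => v (y0 + ι (T1 p))) = fun p => v (y0 + T0 p) := by
    funext p
    rw [hT p]
  rw [e] at key
  exact key

theorem un_img {N d n : ℕ} (e : (Eu (Fin N) × Eu (Fin d)) ≃ₗ[ℝ] Eu (Fin n))
    {K : Set (Eu (Fin N) × Eu (Fin d))} (h0 : volume K ≠ 0)
    (f : Eu (Fin n) → ℝ) :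
    ∫ x, f x ∂(un (e '' K)) = ∫ z, f (e z) ∂(un K) := by
  let e' : (Eu (Fin N) × Eu (Fin d)) ≃L[ℝ] Eu (Fin n) := e.toContinuousLinearEquiv
  have hme : MeasurableEmbedding e' := e'.toHomeomorph.measurableEmbedding
  have hv0 : (volume : Measure (Eu (Fin N) × Eu (Fin d))).IsAddHaarMeasure :=
    inferInstanceAs
      (Measure.prod (volume : Measure (Eu (Fin N))) (volume : Measure (Eu (Fin d)))).IsAddHaarMeasure
  have hh : (Measure.map e' (volume : Measure (Eu (Fin N) × Eu (Fin d)))).IsAddHaarMeasure :=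
    e'.isAddHaarMeasure_map volume
  obtain ⟨c, hc⟩ : ∃ c : NNReal, Measure.map e' (volume : Measure (Eu (Fin N) × Eu (Fin d))) =
      c • (volume : Measure (Eu (Fin n))) := ⟨_, Measure.isAddLeftInvariant_eq_smul _ _⟩
  have hKe : e' ⁻¹' (e '' K) = K := preimage_image_eq K e.injective
  have hv : volume K = c * volume (e '' K) := by
    have h2 : (Measure.map e' (volume : Measure (Eu (Fin N) × Eu (Fin d)))) (e '' K) =
        volume K := by
      rw [hme.map_apply, hKe]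
    rw [← h2, hc]
    rfl
  have hc0 : (c : ℝ≥0∞) ≠ 0 := by
    intro h
    rw [h, zero_mul] at hv
    exact h0 hv
  have hr : Measure.map e' (volume.restrict K) = c • (volume.restrict (e '' K)) := by
    rw [← hKe, ← hme.restrict_map, hc, Measure.restrict_smul, hKe]
  have hun : un (e '' K) = Measure.map e' (un K) := by
    unfold un
    rw [Measure.map_smul, hr, hv]
    have h3 : (c • (volume.restrict (e '' K)) : Measure (Eu (Fin n))) =
        (c : ℝ≥0∞) • volume.restrict (e '' K) := rfl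
    rw [h3, smul_smul, ENNReal.mul_inv (Or.inl hc0) (Or.inl ENNReal.coe_ne_top)]
    congr 1
    rw [mul_comm (c : ℝ≥0∞)⁻¹, mul_assoc, ENNReal.inv_mul_cancel hc0 ENNReal.coe_ne_top, mul_one]
  rw [hun, hme.integral_map]
  rfl

/-- the uniform measure on a product -/
theorem un_prd {a b : ℕ} (K : Set (Eu (Fin a))) (L : Set (Eu (Fin b)))
    (h0 : volume K ≠ 0) (h1 : volume K ≠ ⊤) :
    un (K ×ˢ L) = (un K).prod (un L) := by
  unfold un
  rw [Measure.volume_eq_prod, Measure.prod_prod, ← Measure.prod_restrict,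
    Measure.prod_smul_left, Measure.prod_smul_right, smul_smul,
    ENNReal.mul_inv (Or.inl h0) (Or.inl h1)]

theorem bint {Ω : Type} [MeasurableSpace Ω] (ρ : Measure Ω) [IsProbabilityMeasure ρ]
    {g : Ω → ℝ} (hg : Measurable g) {C : ℝ} (hb : ∀ z, |g z| ≤ C) : Integrable g ρ :=
  Integrable.of_bound hg.aestronglyMeasurable C (Eventually.of_forall hb)

theorem abs_int {Ω : Type} [MeasurableSpace Ω] (ρ : Measure Ω) [IsProbabilityMeasure ρ]
    {g : Ω → ℝ} (hb : ∀ z, |g z| ≤ 1) : |∫ z, g z ∂ρ| ≤ 1 := by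
  have h := norm_integral_le_of_norm_le_const (μ := ρ) (f := g) (C := 1)
    (Eventually.of_forall hb)
  simpa using h

theorem sqexp {Ω : Type} [MeasurableSpace Ω] (ρ : Measure Ω) [IsProbabilityMeasure ρ]
    {g : Ω → ℝ} (hg : Integrable g ρ) (hg2 : Integrable (fun x => g x ^ 2) ρ) (c : ℝ) :
    ∫ x, (g x - c) ^ 2 ∂ρ = (∫ x, g x ^ 2 ∂ρ) - 2 * c * (∫ x, g x ∂ρ) + c ^ 2 := by
  have j4 : (fun x => (g x - c) ^ 2) = fun x => g x ^ 2 - (2 * c * g x - c ^ 2) := by
    funext x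
    ring
  have i1 : Integrable (fun x => 2 * c * g x) ρ := hg.const_mul _
  have i2 : Integrable (fun x => 2 * c * g x - c ^ 2) ρ := i1.sub (integrable_const _)
  rw [j4, integral_sub hg2 i2, integral_sub i1 (integrable_const _), integral_const_mul]
  simp
  ring

/-- the Efron-Stein inequality -/
theorem efron {α β : Type} [MeasurableSpace α] [MeasurableSpace β] (μ : Measure α)
    (ν : Measure β) [IsProbabilityMeasure μ] [IsProbabilityMeasure ν] (f : α × β → ℝ)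
    (hf : Measurable f) (hb : ∀ z, |f z| ≤ 1) {δ δ' : ℝ}
    (h1 : ∀ y, (∫ x, f (x, y) ^ 2 ∂μ) - (∫ x, f (x, y) ∂μ) ^ 2 ≤ δ)
    (h2 : ∀ x, (∫ y, f (x, y) ^ 2 ∂ν) - (∫ y, f (x, y) ∂ν) ^ 2 ≤ δ') :
    (∫ z, f z ^ 2 ∂(μ.prod ν)) - (∫ z, f z ∂(μ.prod ν)) ^ 2 ≤ δ + δ' := by
  obtain ⟨G, hG⟩ : ∃ G : β → ℝ, G = fun y => ∫ x, f (x, y) ∂μ := ⟨_, rfl⟩
  obtain ⟨H, hH⟩ : ∃ H : α → ℝ, H = fun x => ∫ y, f (x, y) ∂ν := ⟨_, rfl⟩
  obtain ⟨m, hm⟩ : ∃ m : ℝ, m = ∫ z, f z ∂(μ.prod ν) := ⟨_, rfl⟩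
  have hGm : Measurable G := by
    rw [hG]
    exact (hf.stronglyMeasurable.integral_prod_left').measurable
  have hHm : Measurable H := by
    rw [hH]
    exact (hf.stronglyMeasurable.integral_prod_right').measurable
  have hGb : ∀ y, |G y| ≤ 1 := fun y => by rw [hG]; exact abs_int μ fun x => hb _
  have hHb : ∀ x, |H x| ≤ 1 := fun x => by rw [hH]; exact abs_int ν fun y => hb _
  have hfi : Integrable f (μ.prod ν) := bint _ hf hb
  have sqb : ∀ t : ℝ, |t| ≤ 1 → |t ^ 2| ≤ 1 := fun t ht => by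
    rw [abs_pow]
    exact pow_le_one₀ (abs_nonneg _) ht
  have mulb : ∀ t u : ℝ, |t| ≤ 1 → |u| ≤ 1 → |t * u| ≤ 1 := fun t u ht hu => by
    rw [abs_mul]
    exact mul_le_one₀ ht (abs_nonneg _) hu
  have hf2 : Integrable (fun z => f z ^ 2) (μ.prod ν) := bint _ (hf.pow_const 2) fun z => sqb _ (hb z)
  -- the integrals
  have e1 : ∫ y, G y ∂ν = m := by
    rw [hm, integral_prod_symm f hfi, hG]
  have e2 : ∫ x, H x ∂μ = m := by
    rw [hm, integral_prod f hfi, hH]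
  -- the variance of `G`
  have k1 : ∀ y, (G y - m) ^ 2 ≤ ∫ x, (f (x, y) - H x) ^ 2 ∂μ := by
    intro y
    have i1 : Integrable (fun x => f (x, y) - H x) μ :=
      (bint μ (hf.comp measurable_prodMk_right) fun x => hb _).sub (bint μ hHm hHb)
    have i2 : Integrable (fun x => (f (x, y) - H x) ^ 2) μ := by
      refine bint μ (C := 4) (((hf.comp measurable_prodMk_right).sub hHm).pow_const 2) fun x => ?_
      have a1 := abs_le.1 (hb (x, y))
      have a2 := abs_le.1 (hHb x)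
      rw [abs_pow, sq_abs]
      nlinarith
    have i0 : Integrable (fun x => f (x, y)) μ :=
      bint μ (hf.comp measurable_prodMk_right) fun x => hb _
    have j1 : ∫ x, (f (x, y) - H x) ∂μ = G y - m := by
      rw [integral_sub i0 (bint μ hHm hHb), e2, hG]
    have j2 : 0 ≤ ∫ x, ((f (x, y) - H x) - (G y - m)) ^ 2 ∂μ :=
      integral_nonneg fun x => sq_nonneg _
    have j3 : ∫ x, ((f (x, y) - H x) - (G y - m)) ^ 2 ∂μ =
        (∫ x, (f (x, y) - H x) ^ 2 ∂μ) - (G y - m) ^ 2 := by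
      rw [sqexp μ i1 i2, j1]
      ring
    linarith
  have hfH : Integrable (fun z : α × β => (f z - H z.1) ^ 2) (μ.prod ν) := by
    refine bint _ (C := 4) ((hf.sub (hHm.comp measurable_fst)).pow_const 2) fun z => ?_
    have a1 := abs_le.1 (hb z)
    have a2 := abs_le.1 (hHb z.1)
    rw [abs_pow, sq_abs]
    nlinarith
  have k2 : ∫ y, (G y - m) ^ 2 ∂ν ≤ δ' := by
    have i3 : Integrable (fun y => (G y - m) ^ 2) ν := by
      refine bint _ (C := 4) ((hGm.sub measurable_const).pow_const 2) fun y => ?_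
      have a1 := abs_le.1 (hGb y)
      have a2 : |m| ≤ 1 := by rw [hm]; exact abs_int _ hb
      have a3 := abs_le.1 a2
      rw [abs_pow, sq_abs]
      nlinarith
    calc ∫ y, (G y - m) ^ 2 ∂ν ≤ ∫ y, ∫ x, (f (x, y) - H x) ^ 2 ∂μ ∂ν :=
          integral_mono i3 hfH.integral_prod_right k1
      _ = ∫ z, (f z - H z.1) ^ 2 ∂(μ.prod ν) := (integral_prod_symm _ hfH).symm
      _ = ∫ x, ∫ y, (f (x, y) - H x) ^ 2 ∂ν ∂μ := integral_prod _ hfH
      _ ≤ ∫ _x, δ' ∂μ := by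
          refine integral_mono hfH.integral_prod_left (integrable_const _) fun x => ?_
          have i4 : Integrable (fun y => f (x, y)) ν :=
            bint ν (hf.comp measurable_prodMk_left) fun y => hb _
          have i5 : Integrable (fun y => f (x, y) ^ 2) ν :=
            bint ν ((hf.comp measurable_prodMk_left).pow_const 2) fun y => sqb _ (hb _)
          have j5 : ∫ y, f (x, y) ∂ν = H x := by rw [hH]
          have j6 := h2 x
          show ∫ y, (f (x, y) - H x) ^ 2 ∂ν ≤ δ'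
          rw [sqexp ν i4 i5, j5]
          rw [j5] at j6
          linarith
      _ = δ' := by simp
  -- the total variance
  have hG2 : Integrable (fun y => G y ^ 2) ν := bint ν (hGm.pow_const 2) fun y => sqb _ (hGb y)
  have k3 : ∫ z, f z ^ 2 ∂(μ.prod ν) ≤ δ + ∫ y, G y ^ 2 ∂ν := by
    rw [integral_prod_symm _ hf2]
    have : ∫ y, (δ + G y ^ 2) ∂ν = δ + ∫ y, G y ^ 2 ∂ν := by
      rw [integral_add (integrable_const _) hG2]
      simp
    rw [← this]
    refine integral_mono hf2.integral_prod_right ((integrable_const _).add hG2) fun y => ?_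
    have j6 := h1 y
    have j7 : ∫ x, f (x, y) ∂μ = G y := by rw [hG]
    rw [j7] at j6
    show ∫ x, f (x, y) ^ 2 ∂μ ≤ δ + G y ^ 2
    linarith
  have k4 : ∫ y, (G y - m) ^ 2 ∂ν = (∫ y, G y ^ 2 ∂ν) - m ^ 2 := by
    rw [sqexp ν (bint ν hGm hGb) hG2, e1]
    ring
  rw [← hm]
  linarith

/-- variances of independent sums -/
theorem var_sum {α β : Type} [MeasurableSpace α] [MeasurableSpace β] (μ : Measure α)
    (ν : Measure β) [IsProbabilityMeasure μ] [IsProbabilityMeasure ν] (f : α → ℝ) (g : β → ℝ)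
    (hf : Integrable f μ) (hg : Integrable g ν) (hf2 : Integrable (fun x => f x ^ 2) μ)
    (hg2 : Integrable (fun y => g y ^ 2) ν) :
    (∫ z, (f z.1 + g z.2) ^ 2 ∂(μ.prod ν)) - (∫ z, (f z.1 + g z.2) ∂(μ.prod ν)) ^ 2 =
      ((∫ x, f x ^ 2 ∂μ) - (∫ x, f x ∂μ) ^ 2) + ((∫ y, g y ^ 2 ∂ν) - (∫ y, g y ∂ν) ^ 2) := by
  have c1 : ∀ (F : α → ℝ), ∫ z, F z.1 ∂(μ.prod ν) = ∫ x, F x ∂μ := by
    intro F
    have h := integral_prod_mul (μ := μ) (ν := ν) F (fun _ => (1 : ℝ))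
    simpa using h
  have c2 : ∀ (F : β → ℝ), ∫ z, F z.2 ∂(μ.prod ν) = ∫ y, F y ∂ν := by
    intro F
    have h := integral_prod_mul (μ := μ) (ν := ν) (fun _ => (1 : ℝ)) F
    simpa using h
  have e : (fun z : α × β => (f z.1 + g z.2) ^ 2) = fun z =>
      (f z.1 ^ 2 + g z.2 ^ 2) + 2 * (f z.1 * g z.2) := by
    funext z
    ring
  have i1 : Integrable (fun z : α × β => f z.1) (μ.prod ν) := hf.comp_fst ν
  have i2 : Integrable (fun z : α × β => g z.2) (μ.prod ν) := hg.comp_snd μ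
  have i3 : Integrable (fun z : α × β => f z.1 ^ 2) (μ.prod ν) := hf2.comp_fst ν
  have i4 : Integrable (fun z : α × β => g z.2 ^ 2) (μ.prod ν) := hg2.comp_snd μ
  have i5 : Integrable (fun z : α × β => f z.1 * g z.2) (μ.prod ν) := hf.mul_prod hg
  have i6 : Integrable (fun z : α × β => f z.1 ^ 2 + g z.2 ^ 2) (μ.prod ν) := i3.add i4
  rw [e, integral_add i6 (i5.const_mul _), integral_add i3 i4, integral_const_mul,
    integral_add i1 i2, integral_prod_mul, c1 (fun x => f x ^ 2), c2 (fun y => g y ^ 2), c1, c2]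
  ring

theorem var_nn {α : Type} [MeasurableSpace α] (μ : Measure α)
    [IsProbabilityMeasure μ] (f : α → ℝ)
    (hf : Integrable f μ) (hf2 : Integrable (fun x => f x ^ 2) μ) :
    0 ≤ (∫ x, f x ^ 2 ∂μ) - (∫ x, f x ∂μ) ^ 2 := by
  obtain ⟨m, hm⟩ : ∃ m : ℝ, m = ∫ x, f x ∂μ := ⟨_, rfl⟩
  have j2 : 0 ≤ ∫ x, (f x - m) ^ 2 ∂μ := integral_nonneg fun x => sq_nonneg _
  rw [sqexp μ hf hf2, ← hm] at j2
  rw [← hm]
  linarith

end Prd

open Prd in
/-- MB-PRD -/
theorem prd : S_PRD := by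
  intro κ δ δ' a b n e K L hK hL cK cL k hk T s hs hT v hv hvb hd
  have vK : volume K ≠ 0 :=
    (lt_of_lt_of_le (isOpen_interior.measure_pos volume hK.int)
      (measure_mono interior_subset)).ne'
  have vL : volume L ≠ 0 :=
    (lt_of_lt_of_le (isOpen_interior.measure_pos volume hL.int)
      (measure_mono interior_subset)).ne'
  have fK : volume K ≠ ⊤ := hK.comp.measure_lt_top.ne
  have fL : volume L ≠ ⊤ := hL.comp.measure_lt_top.ne
  have pK : IsProbabilityMeasure (un K) := un_prob vK fK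
  have pL : IsProbabilityMeasure (un L) := un_prob vL fL
  have mK : MeasurableSet K := hK.comp.measurableSet
  have mL : MeasurableSet L := hL.comp.measurableSet
  have vKL : volume (K ×ˢ L) ≠ 0 := by
    rw [Measure.volume_eq_prod, Measure.prod_prod]
    exact mul_ne_zero vK vL
  have hme : MeasurableSet (e '' (K ×ˢ L)) := by
    let e' : (Eu (Fin a) × Eu (Fin b)) ≃L[ℝ] Eu (Fin n) := e.toContinuousLinearEquiv
    exact e'.toHomeomorph.measurableEmbedding.measurableSet_image.2 (mK.prod mL)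
  let T1 : Eu (Fin a) →ₗ[ℝ] Eu (Fin k) := T ∘ₗ e.toLinearMap ∘ₗ LinearMap.inl ℝ _ _
  let T2 : Eu (Fin b) →ₗ[ℝ] Eu (Fin k) := T ∘ₗ e.toLinearMap ∘ₗ LinearMap.inr ℝ _ _
  have hT12 : ∀ z : Eu (Fin a) × Eu (Fin b), T (e z) = T1 z.1 + T2 z.2 := by
    intro z
    have h1 : z = LinearMap.inl ℝ _ _ z.1 + LinearMap.inr ℝ _ _ z.2 := by
      ext <;> simp
    have h2 : T (e z) = T (e (LinearMap.inl ℝ _ _ z.1 + LinearMap.inr ℝ _ _ z.2)) := by
      rw [← h1]
    rw [h2, map_add, map_add]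
    rfl
  have cT1 : Continuous T1 := T1.continuous_of_finiteDimensional
  have cT2 : Continuous T2 := T2.continuous_of_finiteDimensional
  have vle : ∀ θ : Eu (Fin k), ‖θ‖ = 1 →
      ((∫ x, ⟪T1 x, θ⟫_ℝ ^ 2 ∂(un K)) - (∫ x, ⟪T1 x, θ⟫_ℝ ∂(un K)) ^ 2) +
      ((∫ y, ⟪T2 y, θ⟫_ℝ ^ 2 ∂(un L)) - (∫ y, ⟪T2 y, θ⟫_ℝ ∂(un L)) ^ 2) ≤ s := by
    intro θ hθ
    have h1 := hT θ hθ
    rw [VW_ind hme, un_img e vKL, un_img e vKL, un_prd K L vK fK] at h1
    simp only [hT12, inner_add_left] at h1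
    rw [var_sum (un K) (un L) (fun x => ⟪T1 x, θ⟫_ℝ) (fun y => ⟪T2 y, θ⟫_ℝ)
      (un_int vK hK.comp.isBounded (by fun_prop)) (un_int vL hL.comp.isBounded (by fun_prop))
      (un_int vK hK.comp.isBounded (by fun_prop))
      (un_int vL hL.comp.isBounded (by fun_prop))] at h1
    exact h1
  have v1 : ∀ θ : Eu (Fin k), 0 ≤
      ((∫ x, ⟪T1 x, θ⟫_ℝ ^ 2 ∂(un K)) - (∫ x, ⟪T1 x, θ⟫_ℝ ∂(un K)) ^ 2) := fun θ =>
    var_nn (un K) (fun x => ⟪T1 x, θ⟫_ℝ) (un_int vK hK.comp.isBounded (by fun_prop))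
      (un_int vK hK.comp.isBounded (by fun_prop))
  have v2 : ∀ θ : Eu (Fin k), 0 ≤
      ((∫ y, ⟪T2 y, θ⟫_ℝ ^ 2 ∂(un L)) - (∫ y, ⟪T2 y, θ⟫_ℝ ∂(un L)) ^ 2) := fun θ =>
    var_nn (un L) (fun x => ⟪T2 x, θ⟫_ℝ) (un_int vL hL.comp.isBounded (by fun_prop))
      (un_int vL hL.comp.isBounded (by fun_prop))
  have g1 : ∀ y : Eu (Fin k), VW (ind K) (fun p => v (y + T1 p)) ≤ δ := fun y =>
    fibc cK T1 y s hs (fun θ hθ => by
      rw [VW_ind mK]
      have h1 := vle θ hθ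
      have h2 := v2 θ
      linarith) v hv hvb hd
  have g2 : ∀ y : Eu (Fin k), VW (ind L) (fun p => v (y + T2 p)) ≤ δ' := fun y =>
    fibc cL T2 y s hs (fun θ hθ => by
      rw [VW_ind mL]
      have h1 := vle θ hθ
      have h2 := v1 θ
      linarith) v hv hvb hd
  rw [VW_ind hme, un_img e vKL, un_img e vKL, un_prd K L vK fK]
  have cv : Continuous v := hv.continuous
  simp only [hT12]
  refine efron (un K) (un L) (fun z => v (T1 z.1 + T2 z.2)) ?_ (fun z => hvb _) ?_ ?_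
  · exact (by fun_prop : Continuous fun z : Eu (Fin a) × Eu (Fin b) =>
      v (T1 z.1 + T2 z.2)).measurable
  · intro y
    have h1 := g1 (T2 y)
    rw [VW_ind mK] at h1
    simpa only [add_comm (T2 y)] using h1
  · intro x
    have h1 := g2 (T1 x)
    rw [VW_ind mL] at h1
    exact h1

end Pool.Agent.R751.MB
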